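import Mathlib

/-!
# Jones' conjecture, module C3: the end of the proof (limits in a normed field)
-/

set_option autoImplicit false
set_option linter.unusedSectionVars false

namespace Pool.Agent.Helper7.JO

open Filter Topology

variable {F : Type} [NormedField F] [CharZero F]

/-- If `u` has norms tending to infinity and `a * u n + b n = 0` infinitely often with `b`
convergent, then `a = 0`. -/
lemma eq_zero_of_frequently (u b : ℕ → F) (hu : Tendsto (fun n => ‖u n‖) atTop atTop) (a L : F)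
    (hb : Tendsto b atTop (𝓝 L)) (h : ∃ᶠ n in atTop, a * u n + b n = 0) : a = 0 ∧ L = 0 := by
  have ha : a = 0 := by
    by_contra ha
    have h1 : Tendsto (fun n => ‖a‖ * ‖u n‖) atTop atTop :=
      Tendsto.const_mul_atTop (norm_pos_iff.2 ha) hu
    have h2 : ∀ᶠ n in atTop, ‖L‖ + 1 < ‖a‖ * ‖u n‖ := h1.eventually_gt_atTop _
    have h3 : ∀ᶠ n in atTop, ‖b n‖ < ‖L‖ + 1 := hb.norm.eventually_lt_const (by linarith)
    obtain ⟨n, hn, h4, h5⟩ := (h.and_eventually (h2.and h3)).exists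
    have h6 : a * u n = - b n := by linear_combination hn
    have h7 : ‖a‖ * ‖u n‖ = ‖b n‖ := by rw [← norm_mul, h6, norm_neg]
    linarith
  refine ⟨ha, ?_⟩
  subst ha
  by_contra hL
  have h1 : ∀ᶠ n in atTop, b n ≠ 0 := hb.eventually_ne hL
  obtain ⟨n, hn, h2⟩ := (h.and_eventually h1).exists
  apply h2
  simpa using hn

/-- The end of the proof. -/
theorem final_step (c γ : F) (hc : c ≠ 0) (A B : ℕ → F) (hAB : ∀ n, A n * B n = c)
    (hrec : ∀ n, B (n + 1) - A (n + 1) = (A n + B n) ^ 2 / 2 - 2 * γ)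
    (hB : Tendsto (fun n => ‖B n‖) atTop atTop) (α β δ : F) (hne : ¬ (α = 0 ∧ β = 0 ∧ δ = 0))
    (h : ∃ᶠ n in atTop, α * B (n + 1) + β * B n ^ 2 + δ = 0) : c = -4 ∧ γ = -2 := by
  have hA : Tendsto A atTop (𝓝 0) := by
    have h1 : Tendsto (fun n => ‖c‖ / ‖B n‖) atTop (𝓝 0) := hB.const_div_atTop _
    rw [tendsto_zero_iff_norm_tendsto_zero]
    refine h1.congr fun n => ?_
    have h2 : B n ≠ 0 := by
      intro h3
      apply hc
      rw [← hAB n, h3, mul_zero]
    rw [← norm_div, ← hAB n, mul_div_cancel_right₀ _ h2]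
  have hB2 : Tendsto (fun n => ‖B n ^ 2‖) atTop atTop := by
    simp only [norm_pow]
    exact (tendsto_pow_atTop two_ne_zero).comp hB
  have hE : Tendsto (fun n => A n ^ 2 / 2 + A (n + 1)) atTop (𝓝 0) := by
    have h1 : Tendsto (fun n => A n ^ 2 / 2 + A (n + 1)) atTop (𝓝 (0 ^ 2 / 2 + 0)) :=
      ((hA.pow 2).div_const 2).add (hA.comp (tendsto_add_atTop_nat 1))
    simpa using h1
  have hrel : ∀ n, B (n + 1) = B n ^ 2 / 2 + (c - 2 * γ) + (A n ^ 2 / 2 + A (n + 1)) := by
    intro n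
    have h1 := hrec n
    have h2 := hAB n
    linear_combination h1 + h2
  obtain ⟨h1, h2⟩ := eq_zero_of_frequently (fun n => B n ^ 2)
    (fun n => (α * (c - 2 * γ) + δ) + α * (A n ^ 2 / 2 + A (n + 1))) hB2 (α / 2 + β)
    ((α * (c - 2 * γ) + δ) + α * 0) (tendsto_const_nhds.add (hE.const_mul α)) (by
      refine h.mono fun n hn => ?_
      rw [hrel n] at hn
      linear_combination hn)
  have hα : α ≠ 0 := by
    rintro rfl
    apply hne
    refine ⟨rfl, ?_, ?_⟩
    · simpa using h1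
    · simpa using h2
  have h3 : ∃ᶠ n in atTop, A n ^ 2 / 2 + A (n + 1) = 0 := by
    refine h.mono fun n hn => ?_
    rw [hrel n] at hn
    have h4 : α * (A n ^ 2 / 2 + A (n + 1)) = 0 := by
      linear_combination hn - B n ^ 2 * h1 - h2
    exact (mul_eq_zero.1 h4).resolve_left hα
  have h5 : ∃ᶠ n in atTop, (c - 2 * γ) / 2 * A n ^ 2 + (c ^ 2 / 4 + c) = 0 := by
    refine h3.mono fun n hn => ?_
    have e1 := hrel n
    have e2 := hAB (n + 1)
    have e3 := hAB n
    have e4 : A (n + 1) = - (A n ^ 2 / 2) := by linear_combination hn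
    rw [hn, add_zero] at e1
    rw [e1, e4] at e2
    linear_combination (-1) * e2 - (A n * B n + c) / 4 * e3
  have h6 : c ^ 2 / 4 + c = 0 := by
    by_contra h7
    have h8 : Tendsto (fun n => (c - 2 * γ) / 2 * A n ^ 2 + (c ^ 2 / 4 + c)) atTop
        (𝓝 ((c - 2 * γ) / 2 * 0 ^ 2 + (c ^ 2 / 4 + c))) :=
      ((hA.pow 2).const_mul _).add tendsto_const_nhds
    have h9 := h8.eventually_ne (b₂ := 0) (by simpa using h7)
    obtain ⟨n, hn, h10⟩ := (h5.and_eventually h9).exists
    exact h10 hn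
  have h7 : c = -4 := by
    have h8 : c * (c + 4) = 0 := by linear_combination 4 * h6
    rcases mul_eq_zero.1 h8 with h9 | h9
    · exact absurd h9 hc
    · linear_combination h9
  refine ⟨h7, ?_⟩
  obtain ⟨n, hn⟩ := h5.exists
  rw [h6, add_zero] at hn
  have hAn : A n ≠ 0 := by
    intro h8
    apply hc
    rw [← hAB n, h8, zero_mul]
  have h8 : (c - 2 * γ) / 2 = 0 := (mul_eq_zero.1 hn).resolve_right (pow_ne_zero 2 hAn)
  linear_combination (1 / 2 : F) * h7 - h8

end Pool.Agent.Helper7.JO
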