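import Pool.Agent.Helper7.JO.Sub2
import Pool.Agent.Helper7.JO.Lim

/-!
# Jones' conjecture, module C3: application of the Subspace theorem
-/

set_option autoImplicit false
set_option linter.unusedSectionVars false

namespace Pool.Agent.Helper7.JO

open Pool.Agent.Helper85.Sub Pool.Agent.Helper10.Sub NumberField Filter

/-- the matrix of the forms at the special place -/
noncomputable def sp {F : Type} [Field F] (e : F) : Matrix (Fin 3) (Fin 3) F :=
  !![1, -(1 / 2), -e; 0, 1, 0; 0, 0, 1]

lemma sp_det {F : Type} [Field F] (e : F) : (sp e).det = 1 := by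
  simp [sp, Matrix.det_fin_three]

lemma sp_alg {F : Type} [Field F] [CharZero F] (e : ℚ) (i j : Fin 3) :
    IsAlgebraic ℚ (sp (e : F) i j) := by
  have h : ∀ r : ℚ, IsAlgebraic ℚ (r : F) := by
    intro r
    have := isAlgebraic_algebraMap (R := ℚ) (A := F) r
    rwa [eq_ratCast] at this
  have h1 : IsAlgebraic ℚ (-(1 / 2) : F) := by
    have := h (-(1 / 2))
    push_cast at this
    exact this
  have h2 : IsAlgebraic ℚ (-(e : F)) := (h e).neg
  fin_cases i <;> fin_cases j <;> simp [sp] <;>
    first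
      | exact isAlgebraic_one
      | exact isAlgebraic_zero
      | simpa using h1
      | simpa using h2

lemma one_alg {F : Type} [Field F] [CharZero F] (i j : Fin 3) :
    IsAlgebraic ℚ ((1 : Matrix (Fin 3) (Fin 3) F) i j) := by
  rw [Matrix.one_apply]
  split_ifs
  · exact isAlgebraic_one
  · exact isAlgebraic_zero

lemma sum_one {F : Type} [Field F] (z : Fin 3 → F) (i : Fin 3) :
    ∑ j, (1 : Matrix (Fin 3) (Fin 3) F) i j * z j = z i := by
  simp [Matrix.one_apply]

lemma sum_sp0 {F : Type} [Field F] (e : F) (z : Fin 3 → F) :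
    ∑ j, sp e 0 j * z j = z 0 - z 1 / 2 - e * z 2 := by
  rw [Fin.sum_univ_three]
  simp [sp]
  ring

lemma sum_sp1 {F : Type} [Field F] (e : F) (z : Fin 3 → F) :
    ∑ j, sp e 1 j * z j = z 1 := by
  rw [Fin.sum_univ_three]
  simp [sp]

lemma sum_sp2 {F : Type} [Field F] (e : F) (z : Fin 3 → F) :
    ∑ j, sp e 2 j * z j = z 2 := by
  rw [Fin.sum_univ_three]
  simp [sp]

section
variable {K : Type} [Field K] [NumberField K]

/-- the bounds -/
noncomputable def aa (v0 : Pl K) (C Q : ℝ) (z w : K) (s : Pl K) (i : Fin 3) : ℝ := by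
  classical
  exact if i = 0 then (if s = v0 then C / Q ^ 2 else nv s w) else if i = 1 then nv s z ^ 2 else 1

lemma aa_prod (v0 : Pl K) (C Q : ℝ) (z w : K) (hw : w ≠ 0) :
    ∏ s, ∏ i, aa v0 C Q z w s i =
      (C / Q ^ 2 / nv v0 w) * (∏ s, nv s w) * (∏ s, nv s z) ^ 2 := by
  classical
  have h1 : ∀ s : Pl K, ∏ i, aa v0 C Q z w s i =
      (if s = v0 then C / Q ^ 2 / nv v0 w else 1) * nv s w * nv s z ^ 2 := by
    intro s
    rw [Fin.prod_univ_three]
    have h2 : aa v0 C Q z w s 0 = (if s = v0 then C / Q ^ 2 / nv v0 w else 1) * nv s w := by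
      by_cases h : s = v0
      · subst h
        have := (nv_pos s hw).ne'
        simp [aa]
        field_simp
      · simp [aa, h]
    have h3 : aa v0 C Q z w s 1 = nv s z ^ 2 := by simp [aa]
    have h4 : aa v0 C Q z w s 2 = 1 := by simp [aa]
    rw [h2, h3, h4, mul_one]
  simp only [h1]
  rw [Finset.prod_mul_distrib, Finset.prod_mul_distrib, Finset.prod_ite_eq', Finset.prod_pow]
  simp

end

lemma form_eq {F : Type} [Field F] [CharZero F] (c γ A B A' B' : F) (hAB : A * B = c)
    (hrec : B' - A' = (A + B) ^ 2 / 2 - 2 * γ) :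
    B' - B ^ 2 / 2 - (c - 2 * γ) * 1 = A ^ 2 / 2 + A' := by
  linear_combination hrec + hAB

end Pool.Agent.Helper7.JO
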