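import Pool.Agent.Helper7.JO.App

/-!
# Jones' conjecture, module C3: application of the Subspace theorem, II
-/

set_option autoImplicit false
set_option linter.unusedSectionVars false

namespace Pool.Agent.Helper7.JO

open Pool.Agent.Helper85.Sub Pool.Agent.Helper10.Sub NumberField Filter

section
variable {K : Type} [Field K] [NumberField K]

lemma exists_kappa (x : K) (hx : x ≠ 0) : ∃ κ : ℝ, 1 ≤ κ ∧ ∀ s : Pl K, 1 ≤ κ * nv s x ∧
    nv s x ≤ κ := by
  classical
  refine ⟨1 + ∑ s, (nv s x)⁻¹ + ∑ s, nv s x, ?_, ?_⟩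
  · have h1 : 0 ≤ ∑ s : Pl K, (nv s x)⁻¹ :=
      Finset.sum_nonneg fun s _ => inv_nonneg.2 (nv_nonneg s x)
    have h2 : 0 ≤ ∑ s : Pl K, nv s x := Finset.sum_nonneg fun s _ => nv_nonneg s x
    linarith
  · intro s
    have h1 : (nv s x)⁻¹ ≤ ∑ s : Pl K, (nv s x)⁻¹ :=
      Finset.single_le_sum (f := fun s => (nv s x)⁻¹)
        (fun s _ => inv_nonneg.2 (nv_nonneg s x)) (Finset.mem_univ s)
    have h2 : nv s x ≤ ∑ s : Pl K, nv s x :=
      Finset.single_le_sum (f := fun s => nv s x) (fun s _ => nv_nonneg s x) (Finset.mem_univ s)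
    have h3 := nv_pos s hx
    have h4 : 0 < (nv s x)⁻¹ := inv_pos.2 h3
    constructor
    · calc (1 : ℝ) = (nv s x)⁻¹ * nv s x := (inv_mul_cancel₀ h3.ne').symm
        _ ≤ _ := by
          apply mul_le_mul_of_nonneg_right _ h3.le
          linarith
    · linarith

/-- bounds for the parameters -/
lemma aa_bounds (v0 : Pl K) (C Q κ : ℝ) (D : ℕ) (z w : K) (hκ : 1 ≤ κ) (hC : 1 ≤ C) (hQκ : κ ≤ Q)
    (hQC : C ≤ Q) (hw : ∀ s, nv s w ≤ Q ^ (2 * D)) (hz : ∀ s, nv s z ≤ Q ^ D)
    (hw' : ∀ s, 1 ≤ κ * Q ^ (2 * D) * nv s w) (hz' : ∀ s, 1 ≤ κ * Q ^ D * nv s z)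
    (s : Pl K) (i : Fin 3) :
    Q ^ (-((2 * D + 2 : ℕ) : ℝ)) ≤ aa v0 C Q z w s i ∧
      aa v0 C Q z w s i ≤ Q ^ (((2 * D + 2 : ℕ) : ℝ)) := by
  have hQ1 : 1 ≤ Q := hκ.trans hQκ
  have hQ0 : 0 < Q := by linarith
  rw [Real.rpow_neg hQ0.le, Real.rpow_natCast]
  have hpow : Q ^ (2 * D + 2) = Q ^ (2 * D) * Q ^ 2 := pow_add _ _ _
  have hD1 : 1 ≤ Q ^ (2 * D) := one_le_pow₀ hQ1
  have hD1' : 1 ≤ Q ^ D := one_le_pow₀ hQ1
  have h21 : 1 ≤ Q ^ 2 := one_le_pow₀ hQ1
  have hP1 : 1 ≤ Q ^ (2 * D + 2) := one_le_pow₀ hQ1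
  fin_cases i
  · by_cases h : s = v0
    · have e : aa v0 C Q z w s 0 = C / Q ^ 2 := by simp [aa, h]
      change _ ≤ aa v0 C Q z w s 0 ∧ aa v0 C Q z w s 0 ≤ _
      rw [e]
      constructor
      · rw [inv_eq_one_div, div_le_div_iff₀ (by positivity) (by positivity), hpow]
        have : 1 * Q ^ 2 ≤ C * (Q ^ (2 * D)) * Q ^ 2 := by
          apply mul_le_mul_of_nonneg_right _ (by positivity)
          nlinarith
        linarith
      · have : C / Q ^ 2 ≤ 1 := by
          rw [div_le_one (by positivity)]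
          nlinarith
        linarith
    · have e : aa v0 C Q z w s 0 = nv s w := by simp [aa, h]
      change _ ≤ aa v0 C Q z w s 0 ∧ aa v0 C Q z w s 0 ≤ _
      rw [e]
      constructor
      · rw [inv_le_comm₀ (by positivity) (by
          have := hw' s
          by_contra hcon
          push Not at hcon
          have h3 : κ * Q ^ (2 * D) * nv s w ≤ 0 :=
            mul_nonpos_of_nonneg_of_nonpos (by positivity) hcon
          linarith)]
        rw [inv_eq_one_div, div_le_iff₀ (by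
          have := hw' s
          by_contra hcon
          push Not at hcon
          have h3 : κ * Q ^ (2 * D) * nv s w ≤ 0 :=
            mul_nonpos_of_nonneg_of_nonpos (by positivity) hcon
          linarith)]
        refine (hw' s).trans ?_
        apply mul_le_mul_of_nonneg_right _ (nv_nonneg s w)
        rw [hpow, mul_comm]
        apply mul_le_mul_of_nonneg_left _ (by positivity)
        nlinarith
      · refine (hw s).trans ?_
        rw [hpow]
        nlinarith
  · have e : aa v0 C Q z w s 1 = nv s z ^ 2 := by simp [aa]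
    change _ ≤ aa v0 C Q z w s 1 ∧ aa v0 C Q z w s 1 ≤ _
    rw [e]
    have hzpos : 0 < nv s z := by
      have := hz' s
      by_contra hcon
      push Not at hcon
      have h3 : κ * Q ^ D * nv s z ≤ 0 :=
        mul_nonpos_of_nonneg_of_nonpos (by positivity) hcon
      linarith
    have hpow2 : Q ^ (2 * D) = (Q ^ D) ^ 2 := by rw [← pow_mul, mul_comm]
    constructor
    · rw [inv_le_comm₀ (by positivity) (by positivity), inv_eq_one_div,
        div_le_iff₀ (by positivity)]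
      have h3 : 1 ≤ (κ * Q ^ D * nv s z) ^ 2 := one_le_pow₀ (hz' s)
      refine h3.trans ?_
      rw [mul_pow, mul_pow, hpow, ← hpow2, mul_comm (Q ^ (2 * D))]
      have : κ ^ 2 ≤ Q ^ 2 := pow_le_pow_left₀ (by linarith) hQκ 2
      gcongr
    · have h3 : nv s z ^ 2 ≤ (Q ^ D) ^ 2 := pow_le_pow_left₀ hzpos.le (hz s) 2
      rw [hpow, hpow2] at *
      nlinarith
  · have e : aa v0 C Q z w s 2 = 1 := by simp [aa]
    change _ ≤ aa v0 C Q z w s 2 ∧ aa v0 C Q z w s 2 ≤ _
    rw [e]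
    exact ⟨inv_le_one_of_one_le₀ hP1, hP1⟩

lemma tendsto_twopow : Tendsto (fun n : ℕ => (2 : ℝ) ^ (2 ^ n)) atTop atTop := by
  have h1 : Tendsto (fun n : ℕ => (2 : ℝ) ^ n) atTop atTop :=
    tendsto_pow_atTop_atTop_of_one_lt (by norm_num)
  have h2 : Tendsto (fun n : ℕ => 2 ^ n) atTop atTop :=
    tendsto_pow_atTop_atTop_of_one_lt (by norm_num)
  exact h1.comp h2

end

theorem sub_app {K : Type} [Field K] [NumberField K] (c γ : ℚ) (hc : c ≠ 0)
    (A B : ℕ → K) (hAB : ∀ n, A n * B n = (c : K))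
    (hrec : ∀ n, B (n + 1) - A (n + 1) = (A n + B n) ^ 2 / 2 - 2 * (γ : K))
    (hintA : ∀ n, ∃ k : ℕ, IsIntegral ℤ ((2 : K) ^ k * A n))
    (hintB : ∀ n, ∃ k : ℕ, IsIntegral ℤ ((2 : K) ^ k * B n))
    (v0 : Pl K) (D : ℕ)
    (hubA : ∀ s n, nv s (A n) ≤ ((2 : ℝ) ^ (2 ^ n)) ^ D)
    (hubB : ∀ s n, nv s (B n) ≤ ((2 : ℝ) ^ (2 ^ n)) ^ D)
    (hlow : ∀ n, (2 : ℝ) ^ (2 ^ n) ≤ nv v0 (B n)) : c = -4 ∧ γ = -2 := by
  classical
  have hcK : (c : K) ≠ 0 := by exact_mod_cast hc
  have hA0 : ∀ n, A n ≠ 0 := fun n h => hcK (by rw [← hAB n, h, zero_mul])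
  have hB0 : ∀ n, B n ≠ 0 := fun n h => hcK (by rw [← hAB n, h, mul_zero])
  obtain ⟨κ, hκ1, hκ⟩ := exists_kappa (c : K) hcK
  let l : (K →+* ℂ) → Matrix (Fin 3) (Fin 3) ℂ := fun σ =>
    if Sum.inl σ = v0 then sp (((c - 2 * γ : ℚ)) : ℂ) else 1
  let l' : (K →+* FF K 2) → Matrix (Fin 3) (Fin 3) (FF K 2) := fun σ =>
    if Sum.inr σ = v0 then sp (((c - 2 * γ : ℚ)) : FF K 2) else 1
  obtain ⟨𝒲, h𝒲, hmain⟩ := subspace2 (K := K) 3 (by norm_num) 1 ((2 * D + 2 : ℕ) : ℝ) one_pos l l'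
    (by
      intro σ i j
      simp only [l]
      split_ifs
      · exact sp_alg _ i j
      · exact one_alg i j)
    (by
      intro σ i j
      simp only [l']
      split_ifs
      · exact sp_alg _ i j
      · exact one_alg i j)
    (by
      intro σ
      simp only [l]
      split_ifs
      · rw [sp_det]; exact one_ne_zero
      · rw [Matrix.det_one]; exact one_ne_zero)
    (by
      intro σ
      simp only [l']
      split_ifs
      · rw [sp_det]; exact one_ne_zero
      · rw [Matrix.det_one]; exact one_ne_zero)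
  let y : ℕ → Fin 3 → K := fun n => ![B (n + 1), B n ^ 2, 1]
  set H : ℝ := ∏ s : Pl K, nv s (c : K) with hH
  have hHB : ∀ n, ∏ s, nv s (B n) ≤ H := by
    intro n
    obtain ⟨k, hk⟩ := hintA n
    have h1 := one_le_prod (A n) (hA0 n) k hk
    have h2 : H = (∏ s, nv s (A n)) * ∏ s, nv s (B n) := by
      rw [hH, ← hAB n, ← Finset.prod_mul_distrib]
      exact Finset.prod_congr rfl fun s _ => nv_mul s _ _
    rw [h2]
    exact le_mul_of_one_le_left (Finset.prod_nonneg fun s _ => nv_nonneg s _) h1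
  have hH0 : 0 ≤ H := Finset.prod_nonneg fun s _ => nv_nonneg s _
  set C : ℝ := 2 * κ ^ 2 + κ with hC
  have hC1 : 1 ≤ C := by nlinarith
  have hev : ∀ᶠ n in atTop, ∃ W ∈ 𝒲, y n ∈ W := by
    have hQ1 := tendsto_twopow.eventually_ge_atTop κ
    have hQ2 := tendsto_twopow.eventually_ge_atTop C
    have hQ3 := tendsto_twopow.eventually_ge_atTop (C * H ^ 3)
    filter_upwards [hQ1, hQ2, hQ3] with n h1 h2 h3
    set Q : ℝ := (2 : ℝ) ^ (2 ^ n) with hQ
    have hQ0 : 1 ≤ Q := hκ1.trans h1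
    have hQp : 0 < Q := by linarith
    have hQs : (2 : ℝ) ^ (2 ^ (n + 1)) = Q ^ 2 := by
      rw [hQ, ← pow_mul, pow_succ]
    have hlow1 := hlow (n + 1)
    rw [hQs] at hlow1
    have hub1 : ∀ s, nv s (B (n + 1)) ≤ Q ^ (2 * D) := by
      intro s
      have := hubB s (n + 1)
      rwa [hQs, ← pow_mul] at this
    have hub2 : ∀ s, nv s (A (n + 1)) ≤ Q ^ (2 * D) := by
      intro s
      have := hubA s (n + 1)
      rwa [hQs, ← pow_mul] at this
    have hform : nv v0 (B (n + 1) - B n ^ 2 / 2 - ((c : K) - 2 * (γ : K)) * 1) ≤ C / Q ^ 2 := by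
      rw [form_eq (c : K) γ (A n) (B n) (A (n + 1)) (B (n + 1)) (hAB n) (hrec n)]
      have hBn := hlow n
      have hκv := (hκ v0).2
      have e1 : nv v0 (A n) ≤ κ / Q := by
        rw [le_div_iff₀ hQp]
        calc nv v0 (A n) * Q ≤ nv v0 (A n) * nv v0 (B n) :=
              mul_le_mul_of_nonneg_left hBn (nv_nonneg _ _)
          _ = nv v0 (c : K) := by rw [← nv_mul, hAB]
          _ ≤ κ := hκv
      have e2 : nv v0 (A (n + 1)) ≤ κ / Q ^ 2 := by
        rw [le_div_iff₀ (by positivity)]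
        calc nv v0 (A (n + 1)) * Q ^ 2 ≤ nv v0 (A (n + 1)) * nv v0 (B (n + 1)) :=
              mul_le_mul_of_nonneg_left hlow1 (nv_nonneg _ _)
          _ = nv v0 (c : K) := by rw [← nv_mul, hAB]
          _ ≤ κ := hκv
      have e3 : nv v0 ((2 : K)⁻¹) ≤ 2 := by
        cases v0 with
        | inl σ =>
          simp only [nv, Sum.elim_inl, map_inv₀, norm_inv]
          rw [map_ofNat]
          norm_num
        | inr σ =>
          simp only [nv, Sum.elim_inr, map_inv₀, map_ofNat, norm_inv]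
          have e4 : ‖(2 : FF K 2)‖ = 2⁻¹ := by
            rw [ff_norm]
            have e5 : ((2 : FF K 2) : PadicAlgCl 2) = algebraMap ℚ_[2] (PadicAlgCl 2) 2 := by
              rw [map_ofNat]; rfl
            rw [e5, PadicAlgCl.norm_extends]
            have := Padic.norm_p (p := 2)
            simpa using this
          rw [e4, inv_inv]
      have e4 : nv v0 (A n ^ 2 / 2) ≤ 2 * κ ^ 2 / Q ^ 2 := by
        rw [div_eq_mul_inv, nv_mul, nv_pow]
        calc nv v0 (A n) ^ 2 * nv v0 (2 : K)⁻¹ ≤ (κ / Q) ^ 2 * 2 := by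
              apply mul_le_mul (pow_le_pow_left₀ (nv_nonneg _ _) e1 2) e3 (nv_nonneg _ _)
              positivity
          _ = 2 * κ ^ 2 / Q ^ 2 := by rw [div_pow]; ring
      calc nv v0 (A n ^ 2 / 2 + A (n + 1)) ≤ _ := nv_add_le _ _ _
        _ ≤ 2 * κ ^ 2 / Q ^ 2 + κ / Q ^ 2 := add_le_add e4 e2
        _ = C / Q ^ 2 := by rw [hC]; ring
    refine hmain Q (aa v0 C Q (B n) (B (n + 1))) hQ0 ?_ ?_ (y n) ?_ ?_ ?_
    · refine aa_bounds v0 C Q κ D (B n) (B (n + 1)) hκ1 hC1 h1 h2 hub1 (fun s => hubB s n) ?_ ?_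
      · intro s
        calc (1 : ℝ) ≤ κ * nv s (c : K) := (hκ s).1
          _ = κ * (nv s (A (n + 1)) * nv s (B (n + 1))) := by rw [← nv_mul, hAB]
          _ ≤ κ * (Q ^ (2 * D) * nv s (B (n + 1))) := by
            apply mul_le_mul_of_nonneg_left _ (by linarith)
            exact mul_le_mul_of_nonneg_right (hub2 s) (nv_nonneg _ _)
          _ = _ := by ring
      · intro s
        calc (1 : ℝ) ≤ κ * nv s (c : K) := (hκ s).1
          _ = κ * (nv s (A n) * nv s (B n)) := by rw [← nv_mul, hAB]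
          _ ≤ κ * (Q ^ D * nv s (B n)) := by
            apply mul_le_mul_of_nonneg_left _ (by linarith)
            exact mul_le_mul_of_nonneg_right (hubA s n) (nv_nonneg _ _)
          _ = _ := by ring
    · rw [aa_prod v0 C Q _ _ (hB0 _), Real.rpow_neg_one]
      have hp1 : 0 ≤ ∏ s, nv s (B (n + 1)) := Finset.prod_nonneg fun s _ => nv_nonneg s _
      have hp2 : 0 ≤ ∏ s, nv s (B n) := Finset.prod_nonneg fun s _ => nv_nonneg s _
      have e1 : C / Q ^ 2 / nv v0 (B (n + 1)) ≤ C / Q ^ 2 := by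
        apply div_le_self (by positivity)
        have : 1 ≤ Q ^ 2 := one_le_pow₀ hQ0
        linarith
      have e1' : 0 ≤ C / Q ^ 2 / nv v0 (B (n + 1)) :=
        div_nonneg (by positivity) (nv_nonneg _ _)
      calc C / Q ^ 2 / nv v0 (B (n + 1)) * (∏ s, nv s (B (n + 1))) * (∏ s, nv s (B n)) ^ 2
          ≤ (C / Q ^ 2) * H * H ^ 2 := by
            apply mul_le_mul _ (pow_le_pow_left₀ hp2 (hHB n) 2) (by positivity) (by positivity)
            apply mul_le_mul e1 (hHB _) hp1 (by positivity)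
        _ = (C * H ^ 3) / Q ^ 2 := by ring
        _ ≤ Q / Q ^ 2 := by
            apply div_le_div_of_nonneg_right h3 (by positivity)
        _ = Q⁻¹ := by field_simp
    · intro k
      fin_cases k
      · exact hintB (n + 1)
      · obtain ⟨k, hk⟩ := hintB n
        refine ⟨2 * k, ?_⟩
        have := hk.pow 2
        rw [mul_pow, ← pow_mul, mul_comm k 2] at this
        exact this
      · exact ⟨0, by simpa [y] using isIntegral_one⟩
    · intro σ i
      by_cases h : Sum.inl σ = v0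
      · have hl : l σ = sp (((c - 2 * γ : ℚ)) : ℂ) := if_pos h
        rw [hl]
        have hmap : ∀ j, σ (y n j) = (fun j => σ (y n j)) j := fun _ => rfl
        fin_cases i
        · change ‖∑ j, sp (((c - 2 * γ : ℚ)) : ℂ) 0 j * σ (y n j)‖ ≤ aa v0 C Q _ _ _ 0
          rw [sum_sp0 (((c - 2 * γ : ℚ)) : ℂ) (fun j => σ (y n j))]
          have e1 : aa v0 C Q (B n) (B (n + 1)) (Sum.inl σ) 0 = C / Q ^ 2 := by simp [aa, h]
          rw [e1]
          have e2 : σ (y n 0) - σ (y n 1) / 2 - (((c - 2 * γ : ℚ)) : ℂ) * σ (y n 2) =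
              σ (B (n + 1) - B n ^ 2 / 2 - ((c : K) - 2 * (γ : K)) * 1) := by
            have h2σ : σ 2 = 2 := map_ofNat σ 2
            simp [y, h2σ]
          rw [e2]
          rw [← h] at hform
          exact hform
        · change ‖∑ j, sp (((c - 2 * γ : ℚ)) : ℂ) 1 j * σ (y n j)‖ ≤ aa v0 C Q _ _ _ 1
          rw [sum_sp1 (((c - 2 * γ : ℚ)) : ℂ) (fun j => σ (y n j))]
          have e1 : aa v0 C Q (B n) (B (n + 1)) (Sum.inl σ) 1 = ‖σ (B n)‖ ^ 2 := by simp [aa, nv]
          rw [e1]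
          simp [y]
        · change ‖∑ j, sp (((c - 2 * γ : ℚ)) : ℂ) 2 j * σ (y n j)‖ ≤ aa v0 C Q _ _ _ 2
          rw [sum_sp2 (((c - 2 * γ : ℚ)) : ℂ) (fun j => σ (y n j))]
          have e1 : aa v0 C Q (B n) (B (n + 1)) (Sum.inl σ) 2 = 1 := by simp [aa]
          rw [e1]
          simp [y]
      · have hl : l σ = 1 := if_neg h
        rw [hl, sum_one (fun j => σ (y n j))]
        fin_cases i
        · change ‖σ (y n 0)‖ ≤ aa v0 C Q _ _ _ 0
          have e1 : aa v0 C Q (B n) (B (n + 1)) (Sum.inl σ) 0 = ‖σ (B (n + 1))‖ := by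
            simp [aa, h, nv]
          rw [e1]
          simp [y]
        · change ‖σ (y n 1)‖ ≤ aa v0 C Q _ _ _ 1
          have e1 : aa v0 C Q (B n) (B (n + 1)) (Sum.inl σ) 1 = ‖σ (B n)‖ ^ 2 := by simp [aa, nv]
          rw [e1]
          simp [y]
        · change ‖σ (y n 2)‖ ≤ aa v0 C Q _ _ _ 2
          have e1 : aa v0 C Q (B n) (B (n + 1)) (Sum.inl σ) 2 = 1 := by simp [aa]
          rw [e1]
          simp [y]
    · intro σ i
      by_cases h : Sum.inr σ = v0
      · have hl : l' σ = sp (((c - 2 * γ : ℚ)) : FF K 2) := if_pos h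
        rw [hl]
        fin_cases i
        · change ‖∑ j, sp (((c - 2 * γ : ℚ)) : FF K 2) 0 j * σ (y n j)‖ ≤ aa v0 C Q _ _ _ 0
          rw [sum_sp0 (((c - 2 * γ : ℚ)) : FF K 2) (fun j => σ (y n j))]
          have e1 : aa v0 C Q (B n) (B (n + 1)) (Sum.inr σ) 0 = C / Q ^ 2 := by simp [aa, h]
          rw [e1]
          have e2 : σ (y n 0) - σ (y n 1) / 2 - (((c - 2 * γ : ℚ)) : FF K 2) * σ (y n 2) =
              σ (B (n + 1) - B n ^ 2 / 2 - ((c : K) - 2 * (γ : K)) * 1) := by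
            have h2σ : σ 2 = 2 := map_ofNat σ 2
            simp [y, h2σ]
          rw [e2]
          rw [← h] at hform
          exact hform
        · change ‖∑ j, sp (((c - 2 * γ : ℚ)) : FF K 2) 1 j * σ (y n j)‖ ≤ aa v0 C Q _ _ _ 1
          rw [sum_sp1 (((c - 2 * γ : ℚ)) : FF K 2) (fun j => σ (y n j))]
          have e1 : aa v0 C Q (B n) (B (n + 1)) (Sum.inr σ) 1 = ‖σ (B n)‖ ^ 2 := by simp [aa, nv]
          rw [e1]
          simp [y]
        · change ‖∑ j, sp (((c - 2 * γ : ℚ)) : FF K 2) 2 j * σ (y n j)‖ ≤ aa v0 C Q _ _ _ 2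
          rw [sum_sp2 (((c - 2 * γ : ℚ)) : FF K 2) (fun j => σ (y n j))]
          have e1 : aa v0 C Q (B n) (B (n + 1)) (Sum.inr σ) 2 = 1 := by simp [aa]
          rw [e1]
          simp [y]
      · have hl : l' σ = 1 := if_neg h
        rw [hl, sum_one (fun j => σ (y n j))]
        fin_cases i
        · change ‖σ (y n 0)‖ ≤ aa v0 C Q _ _ _ 0
          have e1 : aa v0 C Q (B n) (B (n + 1)) (Sum.inr σ) 0 = ‖σ (B (n + 1))‖ := by
            simp [aa, h, nv]
          rw [e1]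
          simp [y]
        · change ‖σ (y n 1)‖ ≤ aa v0 C Q _ _ _ 1
          have e1 : aa v0 C Q (B n) (B (n + 1)) (Sum.inr σ) 1 = ‖σ (B n)‖ ^ 2 := by simp [aa, nv]
          rw [e1]
          simp [y]
        · change ‖σ (y n 2)‖ ≤ aa v0 C Q _ _ _ 2
          have e1 : aa v0 C Q (B n) (B (n + 1)) (Sum.inr σ) 2 = 1 := by simp [aa]
          rw [e1]
          simp [y]
  have hfr : ∃ W ∈ 𝒲, ∃ᶠ n in atTop, y n ∈ W := by
    by_contra hcon
    push Not at hcon
    have h1 : ∀ W ∈ 𝒲, ∀ᶠ n in atTop, y n ∉ W := fun W hW => by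
      simpa using hcon W hW
    have h2 := (Filter.eventually_all_finset 𝒲).2 h1
    obtain ⟨n, ⟨W, hW, hn⟩, h3⟩ := (hev.and h2).exists
    exact h3 W hW hn
  obtain ⟨W, hW, hyW⟩ := hfr
  obtain ⟨f, hf0, hfW⟩ := Submodule.exists_le_ker_of_lt_top W (lt_top_iff_ne_top.2 (h𝒲 W hW))
  set α := f (fun j => if 0 = j then 1 else 0) with hα
  set β := f (fun j => if 1 = j then 1 else 0) with hβ
  set δ := f (fun j => if 2 = j then 1 else 0) with hδ
  have hfx : ∀ x : Fin 3 → K, f x = x 0 * α + x 1 * β + x 2 * δ := by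
    intro x
    rw [LinearMap.pi_apply_eq_sum_univ f x, Fin.sum_univ_three]
    simp [smul_eq_mul, hα, hβ, hδ]
  have hne : ¬ (α = 0 ∧ β = 0 ∧ δ = 0) := by
    rintro ⟨e1, e2, e3⟩
    apply hf0
    ext1 x
    ext1
    rw [LinearMap.comp_apply, hfx, e1, e2, e3]
    simp
  have hrel : ∃ᶠ n in atTop, α * B (n + 1) + β * B n ^ 2 + δ = 0 := by
    refine hyW.mono fun n hn => ?_
    have h1 : f (y n) = 0 := hfW hn
    rw [hfx] at h1
    simp only [y, Matrix.cons_val_zero, Matrix.cons_val_one, Matrix.cons_val] at h1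
    linear_combination h1
  have hBt : Tendsto (fun n => nv v0 (B n)) atTop atTop :=
    tendsto_atTop_mono hlow tendsto_twopow
  cases v0 with
  | inl σ =>
    have h := final_step (F := ℂ) (σ c) (σ γ) (by simpa using hc) (fun n => σ (A n))
      (fun n => σ (B n)) (fun n => by rw [← map_mul, hAB]) (fun n => by
        have := congrArg σ (hrec n)
        have h2σ : σ 2 = 2 := map_ofNat σ 2
        simpa [h2σ] using this) hBt (σ α) (σ β) (σ δ) (by simpa using hne) (hrel.mono fun n hn => by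
        have := congrArg σ hn
        simpa using this)
    obtain ⟨h1, h2⟩ := h
    rw [map_ratCast] at h1 h2
    constructor
    · exact_mod_cast h1
    · exact_mod_cast h2
  | inr σ =>
    have h := final_step (F := FF K 2) (σ c) (σ γ) (by simpa using hc) (fun n => σ (A n))
      (fun n => σ (B n)) (fun n => by rw [← map_mul, hAB]) (fun n => by
        have := congrArg σ (hrec n)
        have h2σ : σ 2 = 2 := map_ofNat σ 2
        simpa [h2σ] using this) hBt (σ α) (σ β) (σ δ) (by simpa using hne) (hrel.mono fun n hn => by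
        have := congrArg σ hn
        simpa using this)
    obtain ⟨h1, h2⟩ := h
    rw [map_ratCast] at h1 h2
    constructor
    · exact_mod_cast h1
    · exact_mod_cast h2

end Pool.Agent.Helper7.JO
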