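import Mathlib

/-!
# Jones' conjecture, module C3: square roots in a number field
-/

set_option autoImplicit false

namespace Pool.Agent.Helper7.JO

lemma exists_field (P : Set ℕ) (hP : P.Finite) : ∃ (K : Type) (_ : Field K) (_ : NumberField K),
    (∃ x : K, x ^ 2 = -1) ∧ ∀ q ∈ P, ∃ x : K, x ^ 2 = (q : K) := by
  classical
  let S : Set (AlgebraicClosure ℚ) := {x | x ^ 2 = -1} ∪ ⋃ q ∈ P, {x | x ^ 2 = (q : AlgebraicClosure ℚ)}
  have hfin : ∀ a : AlgebraicClosure ℚ, {x : AlgebraicClosure ℚ | x ^ 2 = a}.Finite := by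
    intro a
    by_cases h : ∃ y : AlgebraicClosure ℚ, y ^ 2 = a
    · obtain ⟨y, rfl⟩ := h
      refine (Set.toFinite {y, -y}).subset ?_
      intro x hx
      rcases sq_eq_sq_iff_eq_or_eq_neg.1 hx with h | h
      · exact Or.inl h
      · exact Or.inr h
    · have : {x : AlgebraicClosure ℚ | x ^ 2 = a} = ∅ := by
        ext x
        simp only [Set.mem_ofPred_eq, Set.mem_empty_iff_false, iff_false]
        exact fun hx => h ⟨x, hx⟩
      rw [this]
      exact Set.finite_empty
  have hS : S.Finite := (hfin _).union (hP.biUnion fun q _ => hfin _)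
  let K := IntermediateField.adjoin ℚ S
  have hSf : Finite S := hS
  have hfd : FiniteDimensional ℚ K :=
    IntermediateField.finiteDimensional_adjoin
      (fun x _ => (AlgebraicClosure.isAlgebraic ℚ).isAlgebraic x |>.isIntegral)
  refine ⟨K, inferInstance, { to_charZero := inferInstance, to_finiteDimensional := hfd }, ?_, ?_⟩
  · obtain ⟨x, hx⟩ := IsAlgClosed.exists_pow_nat_eq (-1 : AlgebraicClosure ℚ) (n := 2) (by norm_num)
    refine ⟨⟨x, IntermediateField.subset_adjoin _ _ (Or.inl hx)⟩, ?_⟩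
    apply Subtype.ext
    simpa using hx
  · intro q hq
    obtain ⟨x, hx⟩ := IsAlgClosed.exists_pow_nat_eq (q : AlgebraicClosure ℚ) (n := 2) (by norm_num)
    refine ⟨⟨x, IntermediateField.subset_adjoin _ _ (Or.inr (Set.mem_biUnion hq hx))⟩, ?_⟩
    apply Subtype.ext
    simpa using hx

lemma exists_sqrt {K : Type} [Field K] [CharZero K] (P : Set ℕ) (h1 : ∃ x : K, x ^ 2 = -1)
    (hP : ∀ q ∈ P, ∃ x : K, x ^ 2 = (q : K)) (r : ℚ) (hr : r ≠ 0)
    (hpar : ∀ q : ℕ, q.Prime → q ∉ P → Even (padicValRat q r)) :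
    ∃ x : K, x ^ 2 = (r : K) := by
  classical
  set m : ℕ := r.num.natAbs * r.den with hm
  have hn0 : r.num.natAbs ≠ 0 := by simpa using hr
  have hm0 : m ≠ 0 := mul_ne_zero hn0 r.den_ne_zero
  obtain ⟨a, b, hab, hsf⟩ := Nat.sq_mul_squarefree m
  have ha0 : a ≠ 0 := by rintro rfl; simp at hab; exact hm0 hab.symm
  have hb0 : b ≠ 0 := by rintro rfl; simp at hab; exact hm0 hab.symm
  have hprime : ∀ q ∈ a.primeFactors, q ∈ P := by
    intro q hq
    have hqp := Nat.prime_of_mem_primeFactors hq
    have hqa := Nat.dvd_of_mem_primeFactors hq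
    have : Fact q.Prime := ⟨hqp⟩
    by_contra hqP
    have h2 := hpar q hqp hqP
    have h3 : padicValNat q m = padicValNat q r.num.natAbs + padicValNat q r.den :=
      padicValNat.mul hn0 r.den_ne_zero
    have h4 : padicValNat q m = 2 * padicValNat q b + padicValNat q a := by
      rw [← hab, padicValNat.mul (pow_ne_zero 2 hb0) ha0, padicValNat.pow]
    have h5 : padicValNat q a = 1 := by
      have h6 : 1 ≤ padicValNat q a := one_le_padicValNat_of_dvd ha0 hqa
      have h7 : a.factorization q ≤ 1 := hsf.natFactorization_le_one q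
      rw [Nat.factorization_def a hqp] at h7
      omega
    have h6 : padicValRat q r = (padicValNat q r.num.natAbs : ℤ) - padicValNat q r.den := by
      rw [padicValRat.eq_1]
      rfl
    rw [h6] at h2
    obtain ⟨k, hk⟩ := h2
    omega
  have hsq_a : ∃ x : K, x ^ 2 = (a : K) := by
    have h2 : ∀ s : Finset ℕ, (∀ q ∈ s, q ∈ P) → ∃ x : K, x ^ 2 = ((∏ q ∈ s, q : ℕ) : K) := by
      intro s
      induction s using Finset.induction_on with
      | empty => intro _; exact ⟨1, by simp⟩
      | insert q s hq ih =>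
        intro hs
        obtain ⟨x, hx⟩ := ih fun q' hq' => hs q' (Finset.mem_insert_of_mem hq')
        obtain ⟨y, hy⟩ := hP q (hs q (Finset.mem_insert_self _ _))
        refine ⟨y * x, ?_⟩
        rw [Finset.prod_insert hq, mul_pow, hx, hy]
        push_cast
        ring
    obtain ⟨x, hx⟩ := h2 a.primeFactors hprime
    rw [Nat.prod_primeFactors_of_squarefree hsf] at hx
    exact ⟨x, hx⟩
  obtain ⟨x, hx⟩ := hsq_a
  obtain ⟨i, hi⟩ := h1
  have hden : (r.den : K) ≠ 0 := by exact_mod_cast r.den_ne_zero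
  have hmK : (b : K) ^ 2 * (a : K) = (r.num.natAbs : K) * (r.den : K) := by
    have : ((b ^ 2 * a : ℕ) : K) = ((r.num.natAbs * r.den : ℕ) : K) := by rw [hab]
    push_cast at this
    exact this
  have hrK : (r : K) = (r.num : K) / (r.den : K) := by
    conv_lhs => rw [← Rat.num_div_den r]
    push_cast
    rfl
  rcases Int.natAbs_eq r.num with hs | hs
  · refine ⟨b * x / r.den, ?_⟩
    rw [div_pow, mul_pow, hx, hmK, hrK]
    have : (r.num : K) = (r.num.natAbs : K) := by
      conv_lhs => rw [hs]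
      rw [Int.cast_natCast]
    rw [this]
    field_simp
  · refine ⟨i * (b * x / r.den), ?_⟩
    rw [mul_pow, div_pow, mul_pow, hx, hmK, hrK, hi]
    have : (r.num : K) = -(r.num.natAbs : K) := by
      conv_lhs => rw [hs]
      rw [Int.cast_neg, Int.cast_natCast]
    rw [this]
    field_simp

end Pool.Agent.Helper7.JO
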