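import Pool.Agent.Helper7.JO.App2
import Pool.Agent.Helper7.JO.Sq
import Pool.Agent.Helper13.JO.Defs

/-!
# Jones' conjecture, module C3: infinitely many primes divide the critical orbit to an odd power
-/

set_option autoImplicit false
set_option linter.unusedSectionVars false

namespace Pool.Agent.Helper7.JO

open Pool.Agent.Helper85.Sub Pool.Agent.Helper10.Sub NumberField Filter
open Pool.Agent.Helper13.JO

lemma bb_succ (γ c : ℚ) (n : ℕ) : bb γ c (n + 1) = (bb γ c n - γ) ^ 2 + c := by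
  unfold bb
  rw [Function.iterate_succ_apply']
  rfl

lemma bb_zero (γ c : ℚ) : bb γ c 0 = γ := rfl

lemma phi_map (γ c : ℚ) (n : ℕ) (x : ℚ) :
    (phi γ c)^[n] (algebraMap ℚ QQ x) = algebraMap ℚ QQ ((phiQ γ c)^[n] x) := by
  induction n with
  | zero => rfl
  | succ n ih =>
    rw [Function.iterate_succ_apply', Function.iterate_succ_apply', ih]
    simp [phi, phiQ]

lemma bb_ne_zero {γ c : ℚ} (h : Good γ c) (n : ℕ) (hn : 1 ≤ n) : bb γ c n ≠ 0 := by
  intro h0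
  apply h.norat n hn γ
  change (phi γ c)^[n] (algebraMap ℚ QQ γ) = 0
  rw [phi_map]
  change algebraMap ℚ QQ (bb γ c n) = 0
  rw [h0, map_zero]

section
variable {K : Type} [Field K] [NumberField K]

/-- `2`-integrality -/
def I2 (x : K) : Prop := ∃ k : ℕ, IsIntegral ℤ ((2 : K) ^ k * x)

lemma isIntegral_two_pow (k : ℕ) : IsIntegral ℤ ((2 : K) ^ k) := by
  have h : IsIntegral ℤ (2 : K) := by
    have := isIntegral_algebraMap (R := ℤ) (A := K) (x := 2)
    simpa using this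
  exact h.pow k

lemma I2.mul {x y : K} (hx : I2 x) (hy : I2 y) : I2 (x * y) := by
  obtain ⟨k, hk⟩ := hx
  obtain ⟨l, hl⟩ := hy
  refine ⟨k + l, ?_⟩
  have := hk.mul hl
  have e : (2 : K) ^ k * x * (2 ^ l * y) = 2 ^ (k + l) * (x * y) := by rw [pow_add]; ring
  rwa [e] at this

lemma I2.add {x y : K} (hx : I2 x) (hy : I2 y) : I2 (x + y) := by
  obtain ⟨k, hk⟩ := hx
  obtain ⟨l, hl⟩ := hy
  refine ⟨k + l, ?_⟩
  have := ((isIntegral_two_pow (K := K) l).mul hk).add ((isIntegral_two_pow (K := K) k).mul hl)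
  have e : (2 : K) ^ l * (2 ^ k * x) + 2 ^ k * (2 ^ l * y) = 2 ^ (k + l) * (x + y) := by
    rw [pow_add]; ring
  rwa [e] at this

lemma I2.neg {x : K} (hx : I2 x) : I2 (-x) := by
  obtain ⟨k, hk⟩ := hx
  refine ⟨k, ?_⟩
  rw [mul_neg]
  exact hk.neg

lemma I2.sub {x y : K} (hx : I2 x) (hy : I2 y) : I2 (x - y) := by
  rw [sub_eq_add_neg]
  exact hx.add hy.neg

lemma I2.pow {x : K} (hx : I2 x) (n : ℕ) : I2 (x ^ n) := by
  induction n with
  | zero => exact ⟨0, by simpa using isIntegral_one⟩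
  | succ n ih => rw [pow_succ]; exact ih.mul hx

lemma I2.of_sq {x : K} (hx : I2 (x ^ 2)) : I2 x := by
  obtain ⟨k, hk⟩ := hx
  refine ⟨k, ?_⟩
  have h1 : IsIntegral ℤ (((2 : K) ^ k * x) ^ 2) := by
    have := (isIntegral_two_pow (K := K) k).mul hk
    have e : (2 : K) ^ k * (2 ^ k * x ^ 2) = (2 ^ k * x) ^ 2 := by ring
    rwa [e] at this
  exact IsIntegral.of_pow (n := 2) (by norm_num) h1

lemma I2.of_int {x : K} (k : ℕ) (z : ℤ) (h : (2 : K) ^ k * x = z) : I2 x := by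
  refine ⟨k, ?_⟩
  rw [h]
  have := isIntegral_algebraMap (R := ℤ) (A := K) (x := z)
  simpa using this

lemma I2_bb {γ c : ℚ} (h : Good γ c) : I2 (γ : K) ∧ I2 (c : K) ∧ ∀ n, I2 (bb γ c n : K) := by
  obtain ⟨z, hz⟩ := h.hγ
  obtain ⟨w, hw⟩ := h.hc
  have h1 : I2 (γ : K) := by
    apply I2.of_int 1 z
    have : ((2 * γ : ℚ) : K) = ((z : ℚ) : K) := by rw [hz]
    push_cast at this
    rw [pow_one]
    exact this
  have h2 : I2 (c : K) := by
    have h3 : I2 ((w : ℤ) : K) := I2.of_int 0 w (by simp)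
    have h4 : (c : K) = (w : K) - (γ : K) ^ 2 := by
      have : ((γ ^ 2 + c : ℚ) : K) = ((w : ℚ) : K) := by rw [hw]
      push_cast at this
      linear_combination this
    rw [h4]
    exact h3.sub (h1.pow 2)
  refine ⟨h1, h2, ?_⟩
  intro n
  induction n with
  | zero => exact h1
  | succ n ih =>
    rw [bb_succ]
    push_cast
    exact ((ih.sub h1).pow 2).add h2

/-- growth from above -/
lemma growth (γ c : ℚ) (s : Pl K) : ∃ D : ℕ, ∀ n,
    nv s (bb γ c n : K) + (1 + nv s (γ : K) + nv s (c : K)) ≤ ((2 : ℝ) ^ (2 ^ n)) ^ D := by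
  set R : ℝ := 1 + nv s (γ : K) + nv s (c : K) with hR
  have hγ0 := nv_nonneg s (γ : K)
  have hc0 := nv_nonneg s (c : K)
  obtain ⟨D, hD⟩ := pow_unbounded_of_one_lt (nv s (bb γ c 0 : K) + R)
    (by norm_num : (1 : ℝ) < 2)
  refine ⟨D, ?_⟩
  intro n
  induction n with
  | zero =>
    rw [pow_zero, pow_one]
    exact hD.le
  | succ n ih =>
    have h1 : nv s (bb γ c (n + 1) : K) ≤
        (nv s (bb γ c n : K) + nv s (γ : K)) ^ 2 + nv s (c : K) := by
      rw [bb_succ]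
      push_cast
      refine (nv_add_le s _ _).trans ?_
      rw [nv_pow]
      have := pow_le_pow_left₀ (nv_nonneg s _) (nv_sub_le s (bb γ c n : K) (γ : K)) 2
      linarith
    have hb0 := nv_nonneg s (bb γ c n : K)
    have h2 : nv s (bb γ c (n + 1) : K) + R ≤ (nv s (bb γ c n : K) + R) ^ 2 := by
      refine (add_le_add_left h1 R).trans ?_
      rw [hR]
      nlinarith [mul_nonneg hb0 hγ0, mul_nonneg hb0 hc0, mul_nonneg hγ0 hc0]
    refine h2.trans ?_
    have h3 : ((2 : ℝ) ^ (2 ^ (n + 1))) ^ D = (((2 : ℝ) ^ (2 ^ n)) ^ D) ^ 2 := by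
      rw [← pow_mul, ← pow_mul, ← pow_mul]
      congr 1
      ring
    rw [h3]
    exact pow_le_pow_left₀ (by positivity) ih 2

/-- The square root of `b_{n+1}`. -/
lemma eta_le (γ c : ℚ) (s : Pl K) (n : ℕ) (η : K) (hη : η ^ 2 = (bb γ c (n + 1) : K)) (u : ℝ)
    (hu : nv s (bb γ c n : K) + (1 + nv s (γ : K) + nv s (c : K)) ≤ u) :
    nv s (η + ((bb γ c n : K) - (γ : K))) ≤ 2 * u ∧
    nv s (η - ((bb γ c n : K) - (γ : K))) ≤ 2 * u := by
  have hγ0 := nv_nonneg s (γ : K)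
  have hc0 := nv_nonneg s (c : K)
  have hb0 := nv_nonneg s (bb γ c n : K)
  have hg : nv s ((bb γ c n : K) - (γ : K)) ≤ u :=
    (nv_sub_le s _ _).trans (by linarith)
  have hη' : nv s η ≤ u := by
    have h1 : nv s η ^ 2 ≤ u ^ 2 := by
      rw [← nv_pow, hη, bb_succ]
      push_cast
      refine (nv_add_le s _ _).trans ?_
      rw [nv_pow]
      have h2 := pow_le_pow_left₀ (nv_nonneg s _) (nv_sub_le s (bb γ c n : K) (γ : K)) 2
      have h3 := pow_le_pow_left₀ (by positivity) hu 2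
      nlinarith [mul_nonneg hb0 hγ0, mul_nonneg hb0 hc0, mul_nonneg hγ0 hc0]
    exact le_of_sq_le_sq h1 (by linarith)
  exact ⟨(nv_add_le s _ _).trans (by linarith), (nv_sub_le s _ _).trans (by linarith)⟩
where
  le_of_sq_le_sq {a b : ℝ} (h : a ^ 2 ≤ b ^ 2) (hb : 0 ≤ b) : a ≤ b :=
    abs_le_of_sq_le_sq' h hb |>.2

lemma nv_inl_rat (σ : K →+* ℂ) (r : ℚ) : nv (Sum.inl σ) (r : K) = |(r : ℝ)| := by
  simp only [nv, Sum.elim_inl, map_ratCast]
  have : ((r : ℚ) : ℂ) = ((r : ℝ) : ℂ) := by push_cast; rfl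
  rw [this, Complex.norm_real, Real.norm_eq_abs]

lemma nv_inr_rat (σ : K →+* FF K 2) (r : ℚ) : nv (Sum.inr σ) (r : K) = ‖(r : ℚ_[2])‖ := by
  simp only [nv, Sum.elim_inr, map_ratCast]
  rw [ff_norm]
  have : (((r : ℚ) : FF K 2) : PadicAlgCl 2) = algebraMap ℚ_[2] (PadicAlgCl 2) (r : ℚ_[2]) := by
    rw [map_ratCast]; rfl
  rw [this, PadicAlgCl.norm_extends]

end

/-- the critical orbit is large, archimedean case -/
lemma large_arch {γ c : ℚ} (h : Good γ c) (z : ℤ) (hz : γ = z) :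
    ∃ n0, ∀ n, (2 : ℝ) ^ (2 ^ n) ≤ |((bb γ c (n + n0) - γ : ℚ) : ℝ)| := by
  obtain ⟨w, hw⟩ := h.hc
  have hint : ∀ n, ∃ m : ℤ, bb γ c n = m := by
    intro n
    induction n with
    | zero => exact ⟨z, hz⟩
    | succ n ih =>
      obtain ⟨m, hm⟩ := ih
      refine ⟨(m - z) ^ 2 + (w - z ^ 2), ?_⟩
      rw [bb_succ, hm, hz]
      push_cast
      have : c = w - z ^ 2 := by rw [hz] at hw; linear_combination hw
      rw [this]
  set t : ℚ := |c - γ| with ht
  have ht0 : 0 ≤ t := abs_nonneg _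
  have hex : ∃ n0, 3 + t ≤ |bb γ c n0 - γ| := by
    by_contra hcon
    push Not at hcon
    obtain ⟨N, hN⟩ := exists_nat_gt (3 + t + |γ|)
    have hfin : (Set.range (bb γ c)).Finite := by
      refine ((Set.finite_Icc (-(N : ℤ)) N).image (fun m : ℤ => (m : ℚ))).subset ?_
      rintro _ ⟨n, rfl⟩
      obtain ⟨m, hm⟩ := hint n
      refine ⟨m, ?_, hm.symm⟩
      have h1 := hcon n
      have h2 : |bb γ c n| < N := by
        have h3 : |bb γ c n| ≤ |bb γ c n - γ| + |γ| := by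
          have := abs_add_le (bb γ c n - γ) γ
          rwa [sub_add_cancel] at this
        linarith
      rw [hm] at h2
      have h3 := abs_lt.1 h2
      constructor
      · have : (-(N : ℤ) : ℚ) < m := by push_cast; exact h3.1
        exact_mod_cast this.le
      · exact_mod_cast h3.2.le
    exact (Set.infinite_range_of_injective h.wand) hfin
  obtain ⟨n0, hn0⟩ := hex
  refine ⟨n0, ?_⟩
  have key : ∀ n, (2 : ℚ) ^ (2 ^ n) + 1 + t ≤ |bb γ c (n + n0) - γ| := by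
    intro n
    induction n with
    | zero =>
      rw [zero_add]
      norm_num
      linarith
    | succ n ih =>
      have h1 : bb γ c (n + 1 + n0) - γ = (bb γ c (n + n0) - γ) ^ 2 + (c - γ) := by
        rw [show n + 1 + n0 = (n + n0) + 1 by ring, bb_succ]
        ring
      have h2 : (bb γ c (n + n0) - γ) ^ 2 - t ≤ |bb γ c (n + 1 + n0) - γ| := by
        rw [h1]
        have h3 : -t ≤ c - γ := neg_abs_le _
        exact le_trans (by linarith) (le_abs_self _)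
      have h3 : ((2 : ℚ) ^ (2 ^ n) + 1 + t) ^ 2 ≤ (bb γ c (n + n0) - γ) ^ 2 := by
        rw [← sq_abs (bb γ c (n + n0) - γ)]
        exact pow_le_pow_left₀ (by positivity) ih 2
      have h4 : (2 : ℚ) ^ (2 ^ (n + 1)) = ((2 : ℚ) ^ (2 ^ n)) ^ 2 := by
        rw [← pow_mul, pow_succ]
      rw [h4]
      have h5 : (0 : ℚ) < 2 ^ (2 ^ n) := by positivity
      nlinarith [mul_nonneg h5.le ht0]
  intro n
  have h1 := key n
  have h2 : (2 : ℚ) ^ (2 ^ n) ≤ |bb γ c (n + n0) - γ| := by linarith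
  have h3 : (((2 : ℚ) ^ (2 ^ n) : ℚ) : ℝ) ≤ ((|bb γ c (n + n0) - γ| : ℚ) : ℝ) := by
    exact_mod_cast h2
  push_cast at h3
  push_cast
  exact h3

lemma norm_add_of_lt {x y : ℚ_[2]} (h : ‖y‖ < ‖x‖) : ‖x + y‖ = ‖x‖ := by
  rw [Padic.add_eq_max_of_ne h.ne', max_eq_left h.le]

lemma norm_sub_of_lt {x y : ℚ_[2]} (h : ‖y‖ < ‖x‖) : ‖x - y‖ = ‖x‖ := by
  rw [sub_eq_add_neg]
  exact norm_add_of_lt (by rwa [norm_neg])

/-- the critical orbit is large, `2`-adic case -/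
lemma large_two {γ c : ℚ} (h : Good γ c) (z : ℤ) (hz : 2 * γ = z) (hodd : Odd z) (n : ℕ)
    (hn : 1 ≤ n) : ‖((bb γ c n - γ : ℚ) : ℚ_[2])‖ = (2 : ℝ) ^ (2 ^ n) := by
  obtain ⟨w, hw⟩ := h.hc
  have h2 : ‖(2 : ℚ_[2])‖ = (2 : ℝ)⁻¹ := by
    have := Padic.norm_p (p := 2)
    simpa using this
  have hz1 : ‖(z : ℚ_[2])‖ = 1 := by
    rw [Padic.norm_intCast_eq_one_iff]
    have := hodd
    rw [Int.isCoprime_iff_gcd_eq_one]
    obtain ⟨k, hk⟩ := hodd
    have : Int.gcd z 2 = 1 := by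
      rw [← Int.isCoprime_iff_gcd_eq_one]
      exact ⟨1, -k, by rw [hk]; ring⟩
    exact_mod_cast this
  have hγ : ‖(γ : ℚ_[2])‖ = 2 := by
    have h3 : (2 : ℚ_[2]) * (γ : ℚ_[2]) = (z : ℚ_[2]) := by
      have : ((2 * γ : ℚ) : ℚ_[2]) = ((z : ℚ) : ℚ_[2]) := by rw [hz]
      push_cast at this
      exact this
    have h4 := congrArg norm h3
    rw [norm_mul, h2, hz1] at h4
    linarith
  have hc : ‖(c : ℚ_[2])‖ = 4 := by
    have h3 : (c : ℚ_[2]) = -((γ : ℚ_[2]) ^ 2 - (w : ℚ_[2])) := by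
      have : ((γ ^ 2 + c : ℚ) : ℚ_[2]) = ((w : ℚ) : ℚ_[2]) := by rw [hw]
      push_cast at this
      linear_combination this
    have h4 : ‖(γ : ℚ_[2]) ^ 2‖ = 4 := by rw [norm_pow, hγ]; norm_num
    rw [h3, norm_neg, norm_sub_of_lt, h4]
    rw [h4]
    exact (Padic.norm_int_le_one w).trans_lt (by norm_num)
  have key : ∀ n, 1 ≤ n → ‖(bb γ c n : ℚ_[2])‖ = (2 : ℝ) ^ (2 ^ n) := by
    intro n hn
    induction n, hn using Nat.le_induction with
    | base =>
      have : bb γ c 1 = c := by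
        rw [bb_succ, bb_zero]; ring
      rw [this, hc]
      norm_num
    | succ n hn ih =>
      have h5 : (4 : ℝ) ≤ (2 : ℝ) ^ (2 ^ n) := by
        calc (4 : ℝ) = 2 ^ 2 := by norm_num
          _ ≤ _ := pow_le_pow_right₀ (by norm_num) (by
            calc 2 = 2 ^ 1 := rfl
              _ ≤ 2 ^ n := Nat.pow_le_pow_right (by norm_num) hn)
      have h6 : ‖(bb γ c n : ℚ_[2]) - (γ : ℚ_[2])‖ = (2 : ℝ) ^ (2 ^ n) := by
        rw [norm_sub_of_lt, ih]
        rw [ih, hγ]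
        linarith
      rw [bb_succ]
      push_cast
      have h7 : ‖((bb γ c n : ℚ_[2]) - (γ : ℚ_[2])) ^ 2‖ = (2 : ℝ) ^ (2 ^ (n + 1)) := by
        rw [norm_pow, h6, ← pow_mul, pow_succ]
      rw [norm_add_of_lt, h7]
      rw [h7, hc, show (2 : ℝ) ^ (2 ^ (n + 1)) = ((2 : ℝ) ^ (2 ^ n)) ^ 2 by
        rw [← pow_mul, pow_succ]]
      nlinarith
  push_cast
  rw [norm_sub_of_lt, key n hn]
  rw [key n hn, hγ]
  have h5 : (4 : ℝ) ≤ (2 : ℝ) ^ (2 ^ n) := by
    calc (4 : ℝ) = 2 ^ 2 := by norm_num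
      _ ≤ _ := pow_le_pow_right₀ (by norm_num) (by
        calc 2 = 2 ^ 1 := rfl
          _ ≤ 2 ^ n := Nat.pow_le_pow_right (by norm_num) hn)
  linarith

/-- the special place -/
lemma exists_place {γ c : ℚ} (h : Good γ c) (K : Type) [Field K] [NumberField K] :
    ∃ (v0 : Pl K) (n0 : ℕ), ∀ n, 2 * (2 : ℝ) ^ (2 ^ n) ≤
      nv v0 (2 * ((bb γ c (n + n0) : K) - (γ : K))) := by
  obtain ⟨z, hz⟩ := h.hγ
  rcases Int.even_or_odd z with hev | hodd
  · obtain ⟨k, hk⟩ := hev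
    have hγ : γ = k := by
      have : (z : ℚ) = k + k := by rw [hk]; push_cast; ring
      rw [this] at hz
      linarith
    obtain ⟨n0, hn0⟩ := large_arch h k hγ
    obtain ⟨σ⟩ : Nonempty (K →+* ℂ) := inferInstance
    refine ⟨Sum.inl σ, n0, ?_⟩
    intro n
    have e : (2 * ((bb γ c (n + n0) : K) - (γ : K))) =
        ((2 * (bb γ c (n + n0) - γ) : ℚ) : K) := by push_cast; ring
    rw [e, nv_inl_rat]
    push_cast
    rw [abs_mul, abs_two]
    have := hn0 n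
    push_cast at this
    linarith
  · have hne : Nonempty (K →+* FF K 2) := by
      rw [← Fintype.card_pos_iff, card_ff]
      exact Module.finrank_pos
    obtain ⟨σ⟩ := hne
    refine ⟨Sum.inr σ, 2, ?_⟩
    intro n
    have e : (2 * ((bb γ c (n + 2) : K) - (γ : K))) =
        ((2 * (bb γ c (n + 2) - γ) : ℚ) : K) := by push_cast; ring
    rw [e, nv_inr_rat]
    have h1 := large_two h z hz hodd (n + 2) (by omega)
    have h2 : ‖(2 : ℚ_[2])‖ = (2 : ℝ)⁻¹ := by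
      have := Padic.norm_p (p := 2)
      simpa using this
    push_cast
    push_cast at h1
    rw [norm_mul, h1, h2]
    have h3 : (2 : ℝ) ^ (2 ^ (n + 2)) = (2 : ℝ) ^ (2 ^ n) * ((2 : ℝ) ^ (2 ^ n)) ^ 3 := by
      rw [← pow_mul, ← pow_add]
      congr 1
      ring
    have h4 : (2 : ℝ) ≤ (2 : ℝ) ^ (2 ^ n) := by
      calc (2 : ℝ) = 2 ^ 1 := by norm_num
        _ ≤ _ := pow_le_pow_right₀ (by norm_num) Nat.one_le_two_pow
    have h5 : (8 : ℝ) ≤ ((2 : ℝ) ^ (2 ^ n)) ^ 3 := by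
      calc (8 : ℝ) = 2 ^ 3 := by norm_num
        _ ≤ _ := pow_le_pow_left₀ (by norm_num) h4 3
    rw [h3]
    nlinarith

theorem oddPrimes : OddPrimesStmt := by
  classical
  intro γ c h hfin0
  have hfin : (oddP γ c).Finite := by simpa using hfin0
  obtain ⟨K, fK, nK, hi, hsq⟩ := exists_field (insert 2 (oddP γ c)) (hfin.insert 2)
  have hη : ∀ n, ∃ η : K, η ^ 2 = (bb γ c (n + 1) : K) := by
    intro n
    refine exists_sqrt (insert 2 (oddP γ c)) hi hsq _ (bb_ne_zero h (n + 1) (by omega)) ?_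
    intro q hq hqP
    rw [Set.mem_insert_iff, not_or] at hqP
    rw [← Int.not_odd_iff_even]
    intro hodd
    exact hqP.2 ⟨hq, hqP.1, n + 1, by omega, hodd⟩
  obtain ⟨v0, n0, hlow⟩ := exists_place h K
  have hη2 : ∀ n, ∃ η : K, η ^ 2 = (bb γ c (n + 1) : K) ∧
      nv v0 (η - ((bb γ c n : K) - (γ : K))) ≤ nv v0 (η + ((bb γ c n : K) - (γ : K))) := by
    intro n
    obtain ⟨η, hη⟩ := hη n
    rcases le_total (nv v0 (η - ((bb γ c n : K) - (γ : K))))
      (nv v0 (η + ((bb γ c n : K) - (γ : K)))) with h1 | h1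
    · exact ⟨η, hη, h1⟩
    · refine ⟨-η, by rw [neg_sq, hη], ?_⟩
      have e1 : -η - ((bb γ c n : K) - (γ : K)) = -(η + ((bb γ c n : K) - (γ : K))) := by ring
      have e2 : -η + ((bb γ c n : K) - (γ : K)) = -(η - ((bb γ c n : K) - (γ : K))) := by ring
      rw [e1, e2, nv_neg, nv_neg]
      exact h1
  choose η hη1 hη3 using hη2
  have hc0 : c ≠ 0 := by
    have h1 := bb_ne_zero h 1 le_rfl
    have : bb γ c 1 = c := by
      rw [bb_succ, bb_zero]; ring
    rwa [this] at h1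
  obtain ⟨iγ, ic, ib⟩ := I2_bb (K := K) h
  have iη : ∀ n, I2 (η n) := fun n => I2.of_sq (by rw [hη1]; exact ib (n + 1))
  choose D hD using fun s : Pl K => growth γ c s
  obtain ⟨D1, hD1⟩ : ∃ D1, ∀ s, D s ≤ D1 := by
    refine ⟨∑ s, D s, fun s => ?_⟩
    exact Finset.single_le_sum (f := D) (fun _ _ => Nat.zero_le _) (Finset.mem_univ s)
  have hu : ∀ s n, nv s (bb γ c n : K) + (1 + nv s (γ : K) + nv s (c : K)) ≤
      ((2 : ℝ) ^ (2 ^ n)) ^ D1 := by
    intro s n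
    exact (hD s n).trans (pow_le_pow_right₀ (one_le_pow₀ (by norm_num)) (hD1 s))
  have hub : ∀ n, 2 * ((2 : ℝ) ^ (2 ^ (n + n0))) ^ D1 ≤
      ((2 : ℝ) ^ (2 ^ n)) ^ (2 ^ n0 * (D1 + 1)) := by
    intro n
    have e1 : ((2 : ℝ) ^ (2 ^ n)) ^ (2 ^ n0 * (D1 + 1)) = ((2 : ℝ) ^ (2 ^ (n + n0))) ^ (D1 + 1) := by
      rw [← pow_mul, ← pow_mul]
      congr 1
      ring
    rw [e1, pow_succ ((2 : ℝ) ^ (2 ^ (n + n0))) D1, mul_comm]
    apply mul_le_mul_of_nonneg_left _ (by positivity)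
    calc (2 : ℝ) = 2 ^ 1 := by norm_num
      _ ≤ _ := pow_le_pow_right₀ (by norm_num) Nat.one_le_two_pow
  have hfinal := sub_app (K := K) c γ hc0
    (fun n => η (n + n0) - ((bb γ c (n + n0) : K) - (γ : K)))
    (fun n => η (n + n0) + ((bb γ c (n + n0) : K) - (γ : K)))
    (by
      intro n
      have h1 := hη1 (n + n0)
      rw [bb_succ] at h1
      push_cast at h1
      linear_combination h1)
    (by
      intro n
      have h1 := hη1 (n + n0)
      have e : n + 1 + n0 = n + n0 + 1 := by ring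
      simp only [e]
      linear_combination (-2) * h1)
    (fun n => (iη _).sub ((ib _).sub iγ)) (fun n => (iη _).add ((ib _).sub iγ)) v0
    (2 ^ n0 * (D1 + 1))
    (fun s n => ((eta_le γ c s (n + n0) _ (hη1 _) _ (hu s _)).2).trans (hub n))
    (fun s n => ((eta_le γ c s (n + n0) _ (hη1 _) _ (hu s _)).1).trans (hub n))
    (by
      intro n
      have h1 := hlow n
      have h2 := hη3 (n + n0)
      have h3 : nv v0 (2 * ((bb γ c (n + n0) : K) - (γ : K))) ≤
          nv v0 (η (n + n0) + ((bb γ c (n + n0) : K) - (γ : K))) +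
          nv v0 (η (n + n0) - ((bb γ c (n + n0) : K) - (γ : K))) := by
        have e : (2 * ((bb γ c (n + n0) : K) - (γ : K))) =
          (η (n + n0) + ((bb γ c (n + n0) : K) - (γ : K))) -
          (η (n + n0) - ((bb γ c (n + n0) : K) - (γ : K))) := by ring
        conv_lhs => rw [e]
        exact nv_sub_le _ _ _
      linarith)
  obtain ⟨rfl, rfl⟩ := hfinal
  apply bb_ne_zero h 2 (by norm_num)
  rw [bb_succ, bb_succ, bb_zero]
  norm_num

end Pool.Agent.Helper7.JO
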