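import Pool.Agent.Helper85.SubLOCM

/-!
# Jones' conjecture, module C3: a lower bound for the product over the embeddings
-/

set_option autoImplicit false
set_option linter.unusedSectionVars false

namespace Pool.Agent.Helper7.JO

open Pool.Agent.Helper85.Sub NumberField

instance fact2 : Fact (Nat.Prime 2) := ⟨Nat.prime_two⟩

section
variable (K : Type) [Field K] [NumberField K]

/-- the embeddings in the complex numbers and in a large `2`-adic field -/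
abbrev Pl : Type := (K →+* ℂ) ⊕ (K →+* FF K 2)

variable {K}

/-- the absolute value of an embedding -/
noncomputable def nv (s : Pl K) (x : K) : ℝ :=
  Sum.elim (fun σ => ‖σ x‖) (fun σ => ‖σ x‖) s

lemma nv_mul (s : Pl K) (x y : K) : nv s (x * y) = nv s x * nv s y := by
  cases s <;> simp [nv]

lemma nv_nonneg (s : Pl K) (x : K) : 0 ≤ nv s x := by
  cases s <;> simp [nv]

lemma nv_pos (s : Pl K) {x : K} (hx : x ≠ 0) : 0 < nv s x := by
  cases s <;> simp [nv, hx]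

lemma nv_add_le (s : Pl K) (x y : K) : nv s (x + y) ≤ nv s x + nv s y := by
  cases s with
  | inl σ => simp only [nv, Sum.elim_inl, map_add]; exact norm_add_le _ _
  | inr σ => simp only [nv, Sum.elim_inr, map_add]; exact norm_add_le _ _

lemma nv_neg (s : Pl K) (x : K) : nv s (-x) = nv s x := by
  cases s <;> simp [nv]

lemma nv_sub_le (s : Pl K) (x y : K) : nv s (x - y) ≤ nv s x + nv s y := by
  rw [sub_eq_add_neg, ← nv_neg s y]
  exact nv_add_le s x (-y)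

lemma nv_one (s : Pl K) : nv s 1 = 1 := by
  cases s <;> simp [nv]

lemma nv_pow (s : Pl K) (x : K) (n : ℕ) : nv s (x ^ n) = nv s x ^ n := by
  cases s <;> simp [nv]

lemma nv_natCast_le (s : Pl K) (n : ℕ) : nv s (n : K) ≤ n := by
  induction n with
  | zero => cases s <;> simp [nv]
  | succ n ih =>
    push_cast
    exact (nv_add_le s _ _).trans (by rw [nv_one]; linarith)

lemma prod_C (x : K) : ∏ σ : K →+* ℂ, ‖σ x‖ = |((Algebra.norm ℚ x : ℚ) : ℝ)| := by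
  have h1 := Algebra.norm_eq_prod_embeddings (L := K) ℚ ℂ x
  have h2 : ∏ σ : K →+* ℂ, σ x = ∏ σ : K →ₐ[ℚ] ℂ, σ x := by
    refine Fintype.prod_equiv (RingHom.equivRatAlgHom K ℂ) _ _ ?_
    intro σ
    rfl
  rw [← norm_prod, h2, ← h1]
  simp

lemma prod_2 (x : K) : ∏ σ : K →+* FF K 2, ‖σ x‖ = ‖((Algebra.norm ℚ x : ℚ) : ℚ_[2])‖ := by
  have h1 := Algebra.norm_eq_prod_embeddings (L := K) ℚ (PadicAlgCl 2) x
  have h3 : ∏ σ : K →+* FF K 2, ‖σ x‖ = ∏ σ : K →+* PadicAlgCl 2, ‖σ x‖ := by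
    refine Fintype.prod_equiv (liftEquiv (K := K) (p := 2)) _ _ ?_
    intro σ
    rw [liftEquiv_apply, ff_norm]
  have h2 : ∏ σ : K →+* PadicAlgCl 2, σ x = ∏ σ : K →ₐ[ℚ] PadicAlgCl 2, σ x := by
    refine Fintype.prod_equiv (RingHom.equivRatAlgHom K (PadicAlgCl 2)) _ _ ?_
    intro σ
    rfl
  rw [h3, ← norm_prod, h2, ← h1]
  rw [eq_ratCast, ← map_ratCast (algebraMap ℚ_[2] (PadicAlgCl 2)), PadicAlgCl.norm_extends]

lemma int_prod (m : ℤ) (hm : m ≠ 0) : 1 ≤ |(m : ℝ)| * ‖(m : ℚ_[2])‖ := by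
  have hm' : (m : ℚ_[2]) ≠ 0 := by exact_mod_cast hm
  have h1 := Padic.norm_eq_zpow_neg_valuation hm'
  have h2 : ‖(m : ℚ_[2])‖ ≤ 1 := Padic.norm_int_le_one m
  have hv : 0 ≤ (m : ℚ_[2]).valuation := by
    by_contra hv
    push Not at hv
    have h3 : (1 : ℝ) < ((2 : ℕ) : ℝ) ^ (-(m : ℚ_[2]).valuation) :=
      one_lt_zpow₀ (by norm_num) (by omega)
    rw [← h1] at h3
    linarith
  obtain ⟨n, hn⟩ := Int.eq_ofNat_of_zero_le hv
  rw [hn] at h1
  have h3 : ((2 ^ n : ℕ) : ℤ) ∣ m := by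
    have := (Padic.norm_int_le_pow_iff_dvd (p := 2) m n).1 h1.le
    exact_mod_cast this
  have h4 : ((2 ^ n : ℕ) : ℤ) ≤ |m| := Int.le_of_dvd (abs_pos.2 hm) ((dvd_abs _ _).2 h3)
  have h5 : (2 : ℝ) ^ n ≤ |(m : ℝ)| := by
    have : (((2 ^ n : ℕ) : ℤ) : ℝ) ≤ ((|m| : ℤ) : ℝ) := by exact_mod_cast h4
    push_cast at this
    exact this
  rw [h1, zpow_neg, zpow_natCast]
  push_cast
  rw [← div_eq_mul_inv, le_div_iff₀ (by positivity)]
  linarith

lemma one_le_prod (x : K) (hx : x ≠ 0) (k : ℕ) (h : IsIntegral ℤ ((2 : K) ^ k * x)) :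
    1 ≤ ∏ s : Pl K, nv s x := by
  rw [Fintype.prod_sum_type]
  simp only [nv, Sum.elim_inl, Sum.elim_inr]
  rw [prod_C, prod_2]
  set d := Module.finrank ℚ K
  have h1 : IsIntegral ℤ (Algebra.norm ℚ ((2 : K) ^ k * x)) := Algebra.isIntegral_norm ℚ h
  obtain ⟨m, hm⟩ := IsIntegrallyClosed.isIntegral_iff.1 h1
  have h2 : Algebra.norm ℚ ((2 : K) ^ k * x) = (2 : ℚ) ^ (k * d) * Algebra.norm ℚ x := by
    rw [map_mul, map_pow]
    have h3 : Algebra.norm ℚ (2 : K) = (2 : ℚ) ^ d := by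
      have := Algebra.norm_algebraMap (S := K) (2 : ℚ)
      simpa using this
    rw [h3, ← pow_mul, mul_comm d k]
  rw [h2] at hm
  have hN : Algebra.norm ℚ x ≠ 0 := Algebra.norm_ne_zero_iff.2 hx
  have hm0 : m ≠ 0 := by
    rintro rfl
    rw [map_zero] at hm
    exact mul_ne_zero (by positivity) hN hm.symm
  have h4 := int_prod m hm0
  have h5 : (m : ℝ) = (2 : ℝ) ^ (k * d) * ((Algebra.norm ℚ x : ℚ) : ℝ) := by
    have : ((m : ℚ) : ℝ) = (((2 : ℚ) ^ (k * d) * Algebra.norm ℚ x : ℚ) : ℝ) := by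
      rw [← hm]; simp
    push_cast at this
    exact this
  have h6 : (m : ℚ_[2]) = (2 : ℚ_[2]) ^ (k * d) * ((Algebra.norm ℚ x : ℚ) : ℚ_[2]) := by
    have : ((m : ℚ) : ℚ_[2]) = (((2 : ℚ) ^ (k * d) * Algebra.norm ℚ x : ℚ) : ℚ_[2]) := by
      rw [← hm]; simp
    push_cast at this
    exact this
  rw [h5, h6, abs_mul, norm_mul, norm_pow, abs_pow] at h4
  have h7 : ‖(2 : ℚ_[2])‖ = (2 : ℝ)⁻¹ := by
    have := Padic.norm_p (p := 2)
    simpa using this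
  rw [h7] at h4
  have h8 : (|(2 : ℝ)| ^ (k * d) * (2 : ℝ)⁻¹ ^ (k * d)) = 1 := by
    rw [← mul_pow, abs_of_pos (by norm_num : (0 : ℝ) < 2), mul_inv_cancel₀ (by norm_num), one_pow]
  calc (1 : ℝ) ≤ _ := h4
    _ = (|(2 : ℝ)| ^ (k * d) * (2 : ℝ)⁻¹ ^ (k * d)) * (|((Algebra.norm ℚ x : ℚ) : ℝ)| *
        ‖((Algebra.norm ℚ x : ℚ) : ℚ_[2])‖) := by ring
    _ = _ := by rw [h8, one_mul]

end

end Pool.Agent.Helper7.JO
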