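import Pool.Agent.Helper7.JO.PF
import Pool.Agent.Helper94.SubSUBF
import Pool.Agent.Helper98.SubSUBK

/-!
# Jones' conjecture, module C3: the Subspace theorem with the prime 2
-/

set_option autoImplicit false
set_option linter.unusedSectionVars false

namespace Pool.Agent.Helper7.JO

open Pool.Agent.Helper85.Sub Pool.Agent.Helper10.Sub NumberField

lemma card_ff (K : Type) [Field K] [NumberField K] :
    Fintype.card (K →+* FF K 2) = Module.finrank ℚ K := by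
  rw [Fintype.card_congr (liftEquiv (K := K) (p := 2)),
      Fintype.card_congr (RingHom.equivRatAlgHom K (PadicAlgCl 2))]
  exact AlgHom.card ℚ K (PadicAlgCl 2)

theorem subspace2 {K : Type} [Field K] [NumberField K] (M : ℕ) (hM : 2 ≤ M) (δ B : ℝ) (hδ : 0 < δ)
    (l : (K →+* ℂ) → Matrix (Fin M) (Fin M) ℂ)
    (l' : (K →+* FF K 2) → Matrix (Fin M) (Fin M) (FF K 2))
    (hl : ∀ σ i j, IsAlgebraic ℚ (l σ i j)) (hl' : ∀ σ i j, IsAlgebraic ℚ (l' σ i j))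
    (hd : ∀ σ, (l σ).det ≠ 0) (hd' : ∀ σ, (l' σ).det ≠ 0) :
    ∃ 𝒲 : Finset (Submodule K (Fin M → K)), (∀ W ∈ 𝒲, W ≠ ⊤) ∧
      ∀ (Q : ℝ) (a : Pl K → Fin M → ℝ), 1 ≤ Q →
      (∀ s i, Q ^ (-B) ≤ a s i ∧ a s i ≤ Q ^ B) →
      (∏ s, ∏ i, a s i) ≤ Q ^ (-δ) →
      ∀ y : Fin M → K, (∀ k, ∃ n : ℕ, IsIntegral ℤ ((2 : K) ^ n * y k)) →
      (∀ σ i, ‖∑ j, l σ i j * σ (y j)‖ ≤ a (Sum.inl σ) i) →
      (∀ σ i, ‖∑ j, l' σ i j * σ (y j)‖ ≤ a (Sum.inr σ) i) → ∃ W ∈ 𝒲, y ∈ W := by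
  have hfin : FiniteDimensional ℚ_[2] (FF K 2) := ff_finite K 2
  have hp : Function.Injective (fun _ : Unit => (2 : ℕ)) := fun _ _ _ => rfl
  obtain ⟨𝒲, h𝒲, hmain⟩ := Pool.Agent.Helper98.Sub.subspaceK (K := K) (T := Unit)
    (p := fun _ => 2) (fun _ => FF K 2) (fun _ => card_ff K) M hM δ B hδ
    (fun ι _ _ hι A A' algA algA' dA dA' =>
      Pool.Agent.Helper94.Sub.subspaceF_all (fun _ : Unit => FF K 2) (fun _ => ff_span) (δ / 2)
        (B + 1) hp hι (by positivity) A A' algA algA' dA dA')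
    l (fun _ => l') hl (fun _ => hl') hd (fun _ => hd')
  refine ⟨𝒲, h𝒲, ?_⟩
  intro Q a hQ ha hprod y hy h1 h2
  refine hmain Q (fun σ => a (Sum.inl σ)) (fun _ σ => a (Sum.inr σ)) hQ (fun σ i => ha _ i)
    (fun _ σ i => ha _ i) ?_ y ?_ h1 (fun _ => h2)
  · rw [Fintype.prod_sum_type] at hprod
    simpa using hprod
  · intro k
    obtain ⟨n, hn⟩ := hy k
    exact ⟨n, by simpa [pprod] using hn⟩

end Pool.Agent.Helper7.JO
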